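import Pool.Agent.H38.LR.S8.Y882.KW.Lsw3

/-! The linear sieve on rough numbers with the exact functions, in the form of universal weights. -/

set_option autoImplicit false

open Finset

namespace Pool.Agent.Y882.JR

open Pool.Agent.W23.DC
open Pool.Agent.Y882.KW

open Classical in
/-- the linear sieve: universal weights -/
theorem lsw5 (A0 : ℝ) (F f : ℝ → ℝ) (hSF : SF A0 F f) (τ ζ : ℝ) (hζ : 0 < ζ) (h1 : ζ ≤ τ)
    (hτ : τ ≤ 1) (ε₁ κ : ℝ) (hε₁ : 0 < ε₁) (hεζ : ε₁ ≤ ζ) (hκ : 0 < κ) : ∃ η : ℝ, 0 < η ∧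
      ∀ (Y : ℕ), 2 ≤ Y → ∃ cU cL : Finset ℕ → ℝ, (∀ T, |cU T| ≤ 1 ∧ |cL T| ≤ 1) ∧
        (∀ T ⊆ pr Y ε₁ ζ, (cU T ≠ 0 ∨ cL T ≠ 0) → ((∏ p ∈ T, p : ℕ) : ℝ) ≤ (Y : ℝ) ^ τ) ∧
        (∀ N : ℕ, VV (pr Y ε₁ ζ) cL (fun p => if p ∣ N then 1 else 0) ≤
            (if ∀ p ∈ pr Y ε₁ ζ, ¬ p ∣ N then 1 else 0) ∧
          (if ∀ p ∈ pr Y ε₁ ζ, ¬ p ∣ N then 1 else 0) ≤
            VV (pr Y ε₁ ζ) cU (fun p => if p ∣ N then 1 else 0)) ∧
        ∀ g : ℕ → ℝ, (∀ p ∈ pr Y ε₁ ζ, 0 ≤ g p) → Mer (pr Y ε₁ ζ) (tt Y) g ε₁ ζ η →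
          ε₁ / ζ * (f (τ / ζ) - κ) ≤ VV (pr Y ε₁ ζ) cL g ∧
            VV (pr Y ε₁ ζ) cU g ≤ ε₁ / ζ * (F (τ / ζ) + κ) := by
  have hτ0 : 0 < τ := by linarith
  have hs1 : 1 ≤ τ / ζ := by rw [le_div_iff₀ hζ]; linarith
  have hη' : 0 < ε₁ / ζ * κ := by positivity
  obtain ⟨K, hK⟩ := exists_nat_ge (τ / ε₁)
  have hε1 : ε₁ ≤ 1 := by linarith
  obtain ⟨η, hη, H⟩ := Pool.Agent.W505.DC.MT Pool.Agent.W505.DC.MI A0 F f hSF ε₁
    (ε₁ / ζ * κ) K hε₁ hε1 hη'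
  refine ⟨η, hη, ?_⟩
  intro Y hY
  have hY2 : (2 : ℝ) ≤ Y := by exact_mod_cast hY
  have hlY : 0 < Real.log Y := Real.log_pos (by linarith)
  have hmem : ∀ p ∈ pr Y ε₁ ζ, p.Prime ∧ ε₁ ≤ tt Y p ∧ tt Y p < ζ := by
    intro p hp
    unfold pr at hp
    rw [mem_filter] at hp
    exact hp.2
  have hsiz : Siz (pr Y ε₁ ζ) (tt Y) := by
    refine ⟨fun p hp => (hmem p hp).1, fun p hp => lt_of_lt_of_le hε₁ (hmem p hp).2.1, ?_⟩
    intro p hp q hq
    have hp0 : (0 : ℝ) < p := by exact_mod_cast (hmem p hp).1.pos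
    unfold tt
    rw [div_lt_div_iff_of_pos_right hlY, Real.log_lt_log_iff hp0
      (by exact_mod_cast (hmem q hq).1.pos)]
    exact Nat.cast_lt
  have ht0 : ∀ p, 0 ≤ tt Y p := by
    intro p
    unfold tt
    exact div_nonneg (Real.log_natCast_nonneg p) hlY.le
  have hKτ : τ ≤ (K + 2) * ε₁ := by
    rw [div_le_iff₀ hε₁] at hK
    nlinarith
  have hsup : ∀ b : Bool, (b = false → 2 * ζ ≤ τ) → ∀ T ⊆ pr Y ε₁ ζ,
      lc (pr Y ε₁ ζ) (tt Y) K b τ ζ T ≠ 0 → ((∏ p ∈ T, p : ℕ) : ℝ) ≤ (Y : ℝ) ^ τ := by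
    intro b hb T hT h
    have hE := lc_EE _ _ hsiz K b τ ζ hτ0.le hb T h
    have h5 := EE_sz _ _ hsiz ht0 τ ζ hτ0.le _ hE
    unfold sz at h5
    rw [Nat.primeFactors_prod (fun p hp => (hmem p (hT hp)).1)] at h5
    unfold tt at h5
    rw [← sum_div, div_le_iff₀ hlY] at h5
    have hp0 : ∀ p ∈ T, (p : ℝ) ≠ 0 := by
      intro p hp
      have := (hmem p (hT hp)).1.ne_zero
      exact_mod_cast this
    have h6 : Real.log ((∏ p ∈ T, p : ℕ) : ℝ) = ∑ p ∈ T, Real.log p := by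
      push_cast
      rw [Real.log_prod hp0]
    rw [← h6] at h5
    have hpos : (0 : ℝ) < ((∏ p ∈ T, p : ℕ) : ℝ) := by
      have : 0 < ∏ p ∈ T, p := prod_pos fun p hp => (hmem p (hT hp)).1.pos
      exact_mod_cast this
    rw [← Real.log_le_log_iff hpos (by positivity), Real.log_rpow (by linarith)]
    exact h5
  by_cases h2 : 2 * ζ ≤ τ
  · refine ⟨lc (pr Y ε₁ ζ) (tt Y) K true τ ζ, lc (pr Y ε₁ ζ) (tt Y) K false τ ζ, ?_, ?_, ?_, ?_⟩
    · intro T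
      exact ⟨lc_le _ _ hsiz K true τ ζ hτ0.le (fun _ => h2) T,
        lc_le _ _ hsiz K false τ ζ hτ0.le (fun _ => h2) T⟩
    · intro T hT hne
      rcases hne with h | h
      · exact hsup true (fun _ => h2) T hT h
      · exact hsup false (fun _ => h2) T hT h
    · intro N
      exact lc_ind _ _ hsiz K τ ζ hτ0.le h2 (fun p hp => (hmem p hp).2.2) N
    · intro g hg hM
      have h7 := H (pr Y ε₁ ζ) (tt Y) g ζ (by linarith) hg (fun p hp => (hmem p hp).2.1) hM K le_rfl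
        τ ζ hKτ hεζ le_rfl h1 hτ
      rw [lc_V _ _ hsiz K false τ ζ hτ0.le (fun _ => h2), lc_V _ _ hsiz K true τ ζ hτ0.le
        (fun _ => h2)]
      have h8 := h7.2 h2
      have h9 := h7.1
      constructor
      · refine le_trans (le_of_eq ?_) h8
        ring
      · refine h9.trans (le_of_eq ?_)
        ring
  · push Not at h2
    have hf0 : f (τ / ζ) = 0 := hSF.f2 _ hs1 (by rw [div_le_iff₀ hζ]; exact h2.le)
    refine ⟨lc (pr Y ε₁ ζ) (tt Y) K true τ ζ, fun _ => 0, ?_, ?_, ?_, ?_⟩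
    · intro T
      exact ⟨lc_le _ _ hsiz K true τ ζ hτ0.le (fun h => by simp at h) T, by simp⟩
    · intro T hT hne
      rcases hne with h | h
      · exact hsup true (fun h => by simp at h) T hT h
      · exact absurd rfl h
    · intro N
      refine ⟨?_, lc_ind_up _ _ hsiz K τ ζ hτ0.le N⟩
      unfold VV
      simp only [zero_mul, sum_const_zero]
      split_ifs <;> norm_num
    · intro g hg hM
      have h7 := H (pr Y ε₁ ζ) (tt Y) g ζ (by linarith) hg (fun p hp => (hmem p hp).2.1) hM K le_rfl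
        τ ζ hKτ hεζ le_rfl h1 hτ
      rw [lc_V _ _ hsiz K true τ ζ hτ0.le (fun h => by simp at h)]
      have h9 := h7.1
      constructor
      · unfold VV
        simp only [zero_mul, sum_const_zero]
        rw [hf0]
        have : 0 ≤ ε₁ / ζ * κ := hη'.le
        linarith
      · refine h9.trans (le_of_eq ?_)
        ring

end Pool.Agent.Y882.JR
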