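import Pool.Agent.H38.LR.S8.Y882.Core
import Pool.Agent.H38.LR.S8.Y882.JR.Lsw5

/-! Universal weights of the linear sieve with the exact functions. -/

set_option autoImplicit false

open Finset Filter

namespace Pool.Agent.Y882.JR

open Pool.Agent.W23.DC

theorem mer_mono (P : Finset ℕ) (t g : ℕ → ℝ) (ε₁ w η η' : ℝ) (h : Mer P t g ε₁ w η)
    (hη : η ≤ η') : Mer P t g ε₁ w η' :=
  fun a b h1 h2 h3 => (h a b h1 h2 h3).trans hη

/-- the product over the large primes -/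
theorem prod_large (κ : ℕ) (ζ ε₁ κ₀ : ℝ) (hε₁ : 0 < ε₁) (hεζ : ε₁ ≤ ζ) (hκ₀ : 0 < κ₀)
    (hκ₁ : κ₀ ≤ 1) : ∃ Y0 : ℕ, ∀ Y : ℕ, Y0 ≤ Y → ∀ h : ℕ → ℝ,
      (∀ p ∈ pr Y ε₁ ζ, 0 ≤ h p) → (∀ p ∈ pr Y ε₁ ζ, κ < p → h p ≤ κ / ((p : ℝ) - 1)) →
      Mer (pr Y ε₁ ζ) (tt Y) h ε₁ ζ (κ₀ / 4) →
      (1 - κ₀) * (ε₁ / ζ) ≤ ∏ p ∈ pr Y ε₁ ζ, (1 - h p) ∧
      ∏ p ∈ pr Y ε₁ ζ, (1 - h p) ≤ (1 + κ₀) * (ε₁ / ζ) := by
  classical
  have hζ : 0 < ζ := by linarith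
  set L : ℝ := Real.log (ζ / ε₁) + 1 with hL
  have hL0 : 0 ≤ Real.log (ζ / ε₁) := Real.log_nonneg (by rw [le_div_iff₀ hε₁]; linarith)
  have ev1 : ∀ᶠ Y : ℕ in atTop, (2 * κ + 2 + 8 * κ * L / κ₀ : ℝ) + 1 ≤ (Y : ℝ) ^ ε₁ :=
    ((tendsto_rpow_atTop hε₁).comp tendsto_natCast_atTop_atTop).eventually_ge_atTop _
  obtain ⟨Y0, hY0⟩ := eventually_atTop.1 (ev1.and (eventually_ge_atTop 2))
  refine ⟨Y0, fun Y hY h hh hκ hM => ?_⟩
  obtain ⟨e1, e2⟩ := hY0 Y hY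
  have hlarge : ∀ p ∈ pr Y ε₁ ζ, (Y : ℝ) ^ ε₁ ≤ p := by
    intro p hp
    unfold pr at hp
    rw [mem_filter] at hp
    obtain ⟨_, h1, h2, h3⟩ := hp
    by_contra hc
    push Not at hc
    exact absurd ((tt_lt Y p ε₁ e2 h1.pos).2 hc) (not_lt.2 h2)
  have hLn : 0 ≤ 8 * κ * L / κ₀ := by positivity
  have hκr : (0 : ℝ) ≤ κ := Nat.cast_nonneg _
  -- small values
  set m : ℝ := (Y : ℝ) ^ ε₁ - 1 with hm
  have hm1 : (2 * κ + 2 + 8 * κ * L / κ₀ : ℝ) ≤ m := by linarith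
  have hm0 : 0 < m := by linarith
  have hsm : ∀ p ∈ pr Y ε₁ ζ, h p ≤ κ / m := by
    intro p hp
    have h1 := hlarge p hp
    have h2 : (κ : ℝ) < p := by linarith
    refine (hκ p hp (by exact_mod_cast h2)).trans ?_
    exact div_le_div_of_nonneg_left hκr hm0 (by linarith)
  have hsm2 : (κ : ℝ) / m ≤ 1 / 2 := by
    rw [div_le_iff₀ hm0]
    linarith
  have hsm3 : (κ : ℝ) / m * L ≤ κ₀ / 8 := by
    rw [div_mul_eq_mul_div, div_le_iff₀ hm0]
    have h1 : 8 * κ * L / κ₀ ≤ m := by linarith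
    rw [div_le_iff₀ hκ₀] at h1
    linarith
  have hfil : (pr Y ε₁ ζ).filter (fun p => ε₁ ≤ tt Y p ∧ tt Y p < ζ) = pr Y ε₁ ζ := by
    apply filter_true_of_mem
    intro p hp
    unfold pr at hp
    rw [mem_filter] at hp
    exact hp.2.2
  have hR := hM ε₁ ζ le_rfl hεζ le_rfl
  rw [hfil] at hR
  obtain ⟨r1, r2⟩ := abs_le.1 hR
  set R : ℝ := ∑ p ∈ pr Y ε₁ ζ, h p with hRdef
  have hexp : ε₁ / ζ = Real.exp (-(Real.log (ζ / ε₁))) := by
    rw [Real.exp_neg, Real.exp_log (by positivity), inv_div]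
  constructor
  · have h1 : ∀ p ∈ pr Y ε₁ ζ, Real.exp (-(h p) - 2 * (κ / m) * h p) ≤ 1 - h p := by
      intro p hp
      have h2 := hh p hp
      have h3 := hsm p hp
      have h4 : 0 < 1 - h p := by linarith
      rw [← Real.le_log_iff_exp_le h4]
      have h5 := Real.one_sub_inv_le_log_of_pos h4
      refine le_trans ?_ h5
      have h6 : 1 - (1 - h p)⁻¹ = - (h p / (1 - h p)) := by
        field_simp
        ring
      rw [h6]
      have h7 : h p / (1 - h p) ≤ h p + 2 * (κ / m) * h p := by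
        rw [div_le_iff₀ h4]
        have h8 : h p * h p ≤ (κ / m) * h p := mul_le_mul_of_nonneg_right h3 h2
        have h9 : 0 ≤ (κ / m) * h p * (1 - 2 * h p) := by
          apply mul_nonneg (by positivity)
          linarith
        nlinarith
      linarith
    calc (1 - κ₀) * (ε₁ / ζ) ≤ Real.exp (-κ₀) * (ε₁ / ζ) := by
          apply mul_le_mul_of_nonneg_right _ (by positivity)
          have := Real.add_one_le_exp (-κ₀)
          linarith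
      _ = Real.exp (-κ₀ - Real.log (ζ / ε₁)) := by
          rw [hexp, ← Real.exp_add]
          congr 1
      _ ≤ Real.exp (∑ p ∈ pr Y ε₁ ζ, (-(h p) - 2 * (κ / m) * h p)) := by
          apply Real.exp_le_exp.2
          rw [sum_sub_distrib, sum_neg_distrib, ← mul_sum, ← hRdef]
          have h2 : (κ / m) * R ≤ κ / m * L := by
            apply mul_le_mul_of_nonneg_left _ (by positivity)
            rw [hL]
            linarith
          linarith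
      _ = ∏ p ∈ pr Y ε₁ ζ, Real.exp (-(h p) - 2 * (κ / m) * h p) := Real.exp_sum _ _
      _ ≤ _ := Finset.prod_le_prod (fun _ _ => (Real.exp_pos _).le) h1
  · calc ∏ p ∈ pr Y ε₁ ζ, (1 - h p) ≤ ∏ p ∈ pr Y ε₁ ζ, Real.exp (-(h p)) := by
          apply Finset.prod_le_prod
          · intro p hp
            have := hsm p hp
            linarith
          · intro p hp
            have := Real.add_one_le_exp (-(h p))
            linarith
      _ = Real.exp (-R) := by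
          rw [← Real.exp_sum, sum_neg_distrib]
      _ ≤ Real.exp (κ₀ / 4 - Real.log (ζ / ε₁)) := Real.exp_le_exp.2 (by linarith)
      _ = Real.exp (κ₀ / 4) * (ε₁ / ζ) := by
          rw [hexp, ← Real.exp_add]
          congr 1
      _ ≤ _ := by
          apply mul_le_mul_of_nonneg_right _ (by positivity)
          have h2 := Real.abs_exp_sub_one_le (x := κ₀ / 4) (by rw [abs_of_pos (by linarith)]; linarith)
          rw [abs_of_pos (by linarith : 0 < κ₀ / 4)] at h2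
          have := le_abs_self (Real.exp (κ₀ / 4) - 1)
          linarith

theorem alg_low (V0 V1 R2 U L u l e β κ₀ Fs fs ε : ℝ) (hV0 : 0 ≤ V0) (hV1 : 0 ≤ V1) (he0 : 0 < e)
    (hκ0 : 0 < κ₀) (hκ24 : κ₀ ≤ 1 / 24) (hb2 : β ≤ κ₀) (hFs1 : 1 ≤ Fs) (hε : 0 < ε)
    (q1 : κ₀ * (2 * (Fs + |fs| + 2) + 1 + ε) ≤ ε) (a1 : (1 - β) * V1 ≤ L) (a2 : L ≤ U)
    (a3 : V1 ≤ U) (a4 : U ≤ (1 + β) * V1) (a5 : e * (fs - κ₀) ≤ l) (a6 : u ≤ e * (Fs + κ₀))
    (a7 : (1 - κ₀) * e ≤ R2) (a8 : R2 ≤ (1 + κ₀) * e) :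
    (fs - ε) * (V0 * V1 * R2) ≤ V0 * L * u + V0 * U * l - V0 * U * u := by
  have hU0 : 0 ≤ U := hV1.trans a3
  have hfabs := neg_abs_le fs
  have hfabs2 := le_abs_self fs
  have hfs0 := abs_nonneg fs
  have b1 : V1 * (e * (fs - κ₀)) - β * V1 * (e * (|fs| + κ₀)) ≤ U * l := by
    have c1 : U * (e * (fs - κ₀)) ≤ U * l := mul_le_mul_of_nonneg_left a5 hU0
    have c2 : -(β * V1 * (e * (|fs| + κ₀))) ≤ (U - V1) * (e * (fs - κ₀)) := by
      have c3 : U - V1 ≤ β * V1 := by linarith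
      have c4 : 0 ≤ U - V1 := by linarith
      have c5 : -(e * (|fs| + κ₀)) ≤ e * (fs - κ₀) := by
        have : 0 ≤ e * (fs - κ₀ + (|fs| + κ₀)) := mul_nonneg he0.le (by linarith)
        linarith
      have c6 : 0 ≤ e * (|fs| + κ₀) := by positivity
      calc -(β * V1 * (e * (|fs| + κ₀))) = (β * V1) * (-(e * (|fs| + κ₀))) := by ring
        _ ≤ (U - V1) * (-(e * (|fs| + κ₀))) := mul_le_mul_of_nonpos_right c3 (by linarith)
        _ ≤ _ := mul_le_mul_of_nonneg_left c5 c4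
    linarith
  have b2 : (U - L) * u ≤ 2 * β * V1 * (e * (Fs + κ₀)) := by
    calc (U - L) * u ≤ (U - L) * (e * (Fs + κ₀)) :=
          mul_le_mul_of_nonneg_left a6 (by linarith)
      _ ≤ (2 * β * V1) * (e * (Fs + κ₀)) := by
          apply mul_le_mul_of_nonneg_right _ (by positivity)
          linarith
  have b3 : β * (e * (|fs| + κ₀)) + 2 * β * (e * (Fs + κ₀)) ≤
      κ₀ * (e * (|fs| + κ₀ + 2 * (Fs + κ₀))) := by
    calc β * (e * (|fs| + κ₀)) + 2 * β * (e * (Fs + κ₀)) =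
        β * (e * (|fs| + κ₀ + 2 * (Fs + κ₀))) := by ring
      _ ≤ _ := mul_le_mul_of_nonneg_right hb2 (by positivity)
  have b4 : V1 * (e * (fs - κ₀) - κ₀ * (e * (|fs| + κ₀ + 2 * (Fs + κ₀)))) ≤
      L * u + U * l - U * u := by
    have h1 := mul_le_mul_of_nonneg_left b3 hV1
    have h2 : V1 * (β * (e * (|fs| + κ₀)) + 2 * β * (e * (Fs + κ₀))) =
        β * V1 * (e * (|fs| + κ₀)) + 2 * β * V1 * (e * (Fs + κ₀)) := by ring
    rw [h2] at h1
    have h3 : V1 * (e * (fs - κ₀) - κ₀ * (e * (|fs| + κ₀ + 2 * (Fs + κ₀)))) =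
        V1 * (e * (fs - κ₀)) - V1 * (κ₀ * (e * (|fs| + κ₀ + 2 * (Fs + κ₀)))) := by ring
    rw [h3]
    have h4 : L * u + U * l - U * u = U * l - (U - L) * u := by ring
    rw [h4]
    linarith
  have b5 : (fs - ε) * R2 ≤ e * (fs - ε + κ₀ * (|fs| + ε)) := by
    rcases le_total 0 (fs - ε) with h0 | h0
    · calc (fs - ε) * R2 ≤ (fs - ε) * ((1 + κ₀) * e) := mul_le_mul_of_nonneg_left a8 h0
        _ = e * (fs - ε + κ₀ * (fs - ε)) := by ring
        _ ≤ _ := by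
            apply mul_le_mul_of_nonneg_left _ he0.le
            have : κ₀ * (fs - ε) ≤ κ₀ * (|fs| + ε) := mul_le_mul_of_nonneg_left (by linarith) hκ0.le
            linarith
    · calc (fs - ε) * R2 ≤ (fs - ε) * ((1 - κ₀) * e) := mul_le_mul_of_nonpos_left a7 h0
        _ = e * (fs - ε + κ₀ * (ε - fs)) := by ring
        _ ≤ _ := by
            apply mul_le_mul_of_nonneg_left _ he0.le
            have : κ₀ * (ε - fs) ≤ κ₀ * (|fs| + ε) := mul_le_mul_of_nonneg_left (by linarith) hκ0.le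
            linarith
  have b6 : e * (fs - ε + κ₀ * (|fs| + ε)) ≤
      e * (fs - κ₀) - κ₀ * (e * (|fs| + κ₀ + 2 * (Fs + κ₀))) := by
    have c1 : fs - ε + κ₀ * (|fs| + ε) ≤ fs - κ₀ - κ₀ * (|fs| + κ₀ + 2 * (Fs + κ₀)) := by
      have c2 : κ₀ * κ₀ ≤ κ₀ * (1 / 24) := mul_le_mul_of_nonneg_left hκ24 hκ0.le
      have c4 : κ₀ * (2 * (Fs + |fs| + 2) + 1 + ε) = 2 * (κ₀ * Fs) + 2 * (κ₀ * |fs|) + 5 * κ₀ + κ₀ * ε := by
        ring
      have c5 : κ₀ * (|fs| + ε) = κ₀ * |fs| + κ₀ * ε := by ring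
      have c6 : κ₀ * (|fs| + κ₀ + 2 * (Fs + κ₀)) = κ₀ * |fs| + 3 * (κ₀ * κ₀) + 2 * (κ₀ * Fs) := by ring
      rw [c4] at q1
      rw [c5, c6]
      linarith
    calc e * (fs - ε + κ₀ * (|fs| + ε)) ≤ e * (fs - κ₀ - κ₀ * (|fs| + κ₀ + 2 * (Fs + κ₀))) :=
          mul_le_mul_of_nonneg_left c1 he0.le
      _ = _ := by ring
  calc (fs - ε) * (V0 * V1 * R2) = V0 * (V1 * ((fs - ε) * R2)) := by ring
    _ ≤ V0 * (V1 * (e * (fs - κ₀) - κ₀ * (e * (|fs| + κ₀ + 2 * (Fs + κ₀))))) := by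
        apply mul_le_mul_of_nonneg_left _ hV0
        exact mul_le_mul_of_nonneg_left (b5.trans b6) hV1
    _ ≤ V0 * (L * u + U * l - U * u) := mul_le_mul_of_nonneg_left b4 hV0
    _ = _ := by ring

theorem alg_up (V0 V1 R2 U u e β κ₀ Fs fs ε : ℝ) (hV0 : 0 ≤ V0) (hV1 : 0 ≤ V1) (he0 : 0 < e)
    (hκ0 : 0 < κ₀) (hκ24 : κ₀ ≤ 1 / 24) (hb2 : β ≤ κ₀) (hFs1 : 1 ≤ Fs) (hε : 0 < ε)
    (q1 : κ₀ * (2 * (Fs + |fs| + 2) + 1 + ε) ≤ ε)
    (a3 : V1 ≤ U) (a4 : U ≤ (1 + β) * V1) (a6 : u ≤ e * (Fs + κ₀))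
    (a7 : (1 - κ₀) * e ≤ R2) : V0 * U * u ≤ (Fs + ε) * (V0 * V1 * R2) := by
  have hU0 : 0 ≤ U := hV1.trans a3
  have hfs0 := abs_nonneg fs
  have hFκ : 0 ≤ Fs + κ₀ := by linarith
  have b1 : U * u ≤ (1 + β) * V1 * (e * (Fs + κ₀)) := by
    calc U * u ≤ U * (e * (Fs + κ₀)) := mul_le_mul_of_nonneg_left a6 hU0
      _ ≤ _ := by
          apply mul_le_mul_of_nonneg_right a4 (by positivity)
  have b2 : (1 + β) * (Fs + κ₀) ≤ (Fs + ε) * (1 - κ₀) := by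
    have c0 : β * (Fs + κ₀) ≤ κ₀ * (Fs + κ₀) := mul_le_mul_of_nonneg_right hb2 hFκ
    have c2 : κ₀ * κ₀ ≤ κ₀ * (1 / 24) := mul_le_mul_of_nonneg_left hκ24 hκ0.le
    have c3 : κ₀ * (2 * (Fs + |fs| + 2) + 1 + ε) = 2 * (κ₀ * Fs) + 2 * (κ₀ * |fs|) + 5 * κ₀ + κ₀ * ε := by
      ring
    have c4 : 0 ≤ κ₀ * |fs| := by positivity
    have c5 : (1 + β) * (Fs + κ₀) = Fs + κ₀ + β * (Fs + κ₀) := by ring
    have c6 : (Fs + ε) * (1 - κ₀) = Fs + ε - κ₀ * Fs - κ₀ * ε := by ring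
    have c7 : κ₀ * (Fs + κ₀) = κ₀ * Fs + κ₀ * κ₀ := by ring
    rw [c3] at q1
    rw [c7] at c0
    rw [c5, c6]
    linarith
  calc V0 * U * u = V0 * (U * u) := by ring
    _ ≤ V0 * ((1 + β) * V1 * (e * (Fs + κ₀))) := mul_le_mul_of_nonneg_left b1 hV0
    _ = V0 * V1 * e * ((1 + β) * (Fs + κ₀)) := by ring
    _ ≤ V0 * V1 * e * ((Fs + ε) * (1 - κ₀)) :=
        mul_le_mul_of_nonneg_left b2 (by positivity)
    _ = (Fs + ε) * (V0 * V1 * ((1 - κ₀) * e)) := by ring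
    _ ≤ (Fs + ε) * (V0 * V1 * R2) := by
        apply mul_le_mul_of_nonneg_left _ (by linarith)
        exact mul_le_mul_of_nonneg_left a7 (by positivity)

open Classical in
/-- universal weights of the linear sieve with the exact functions -/
theorem core5 (κ : ℕ) (A0 : ℝ) (F f : ℝ → ℝ) (hSF : SF A0 F f) (τ ζ τ' ε : ℝ) (hζ : 0 < ζ)
    (h1 : ζ ≤ τ) (hτ : τ ≤ 1) (h5 : τ < τ') (hε : 0 < ε) : ∃ ε₁ η : ℝ, 0 < ε₁ ∧ ε₁ ≤ ζ ∧ 0 < η ∧
      ∃ Y0 : ℕ, ∀ Y : ℕ, Y0 ≤ Y → ∃ wU wL : Finset ℕ → ℝ,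
      (∀ T, |wU T| ≤ 5 * Real.log Y ∧ |wL T| ≤ 5 * Real.log Y) ∧
      (∀ T ⊆ PZ Y ζ, (wU T ≠ 0 ∨ wL T ≠ 0) → ((∏ p ∈ T, p : ℕ) : ℝ) ≤ (Y : ℝ) ^ τ') ∧
      (∀ N : ℕ, VV (PZ Y ζ) wL (fun p => if p ∣ N then 1 else 0) ≤
          (if ∀ p ∈ PZ Y ζ, ¬ p ∣ N then 1 else 0) ∧
        (if ∀ p ∈ PZ Y ζ, ¬ p ∣ N then 1 else 0) ≤
          VV (PZ Y ζ) wU (fun p => if p ∣ N then 1 else 0)) ∧
      ∀ h : ℕ → ℝ, (∀ p ∈ PZ Y ζ, 0 ≤ h p) → (∀ p ∈ PZ Y ζ, h p ≤ 1) →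
        (∀ p ∈ PZ Y ζ, κ < p → h p ≤ κ / ((p : ℝ) - 1)) →
        Mer (pr Y ε₁ ζ) (tt Y) h ε₁ ζ η →
        (f (τ / ζ) - ε) * ∏ p ∈ PZ Y ζ, (1 - h p) ≤ VV (PZ Y ζ) wL h ∧
        VV (PZ Y ζ) wU h ≤ (F (τ / ζ) + ε) * ∏ p ∈ PZ Y ζ, (1 - h p) := by
  obtain ⟨C, hC1, HF⟩ := flw
  have hs1 : 1 ≤ τ / ζ := by rw [le_div_iff₀ hζ]; linarith
  set Fs : ℝ := F (τ / ζ) with hFs
  set fs : ℝ := f (τ / ζ) with hfs
  have hFs1 : 1 ≤ Fs := hSF.F1 _ hs1
  set M : ℝ := Fs + |fs| + 2 with hM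
  have hfs0 : 0 ≤ |fs| := abs_nonneg _
  have hM3 : 3 ≤ M := by linarith
  set κ₀ : ℝ := min ε 1 / (8 * M) with hκ₀
  have hκ0 : 0 < κ₀ := div_pos (lt_min hε one_pos) (by linarith)
  have hκε : κ₀ * (8 * M) ≤ ε := by
    rw [hκ₀, div_mul_cancel₀ _ (by positivity)]
    exact min_le_left _ _
  have hκ1 : κ₀ * (8 * M) ≤ 1 := by
    rw [hκ₀, div_mul_cancel₀ _ (by positivity)]
    exact min_le_right _ _
  have hκ24 : κ₀ ≤ 1 / 24 := by nlinarith
  obtain ⟨b, hb1, hb2⟩ : ∃ b : ℕ, C * (κ + 1) ≤ b ∧ (1 / 2 : ℝ) ^ b ≤ κ₀ := by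
    obtain ⟨m, hm⟩ := exists_pow_lt_of_lt_one hκ0 (show (1 / 2 : ℝ) < 1 by norm_num)
    refine ⟨max m (C * (κ + 1)), le_max_right _ _, ?_⟩
    have h6 : (1 / 2 : ℝ) ^ (max m (C * (κ + 1))) ≤ (1 / 2) ^ m :=
      pow_le_pow_of_le_one (by norm_num) (by norm_num) (le_max_left _ _)
    exact h6.trans hm.le
  have hb0 : 1 ≤ b := le_trans (Nat.mul_pos hC1 (by omega)) hb1
  have hCb : (1 : ℝ) ≤ C * b := by
    have : 1 ≤ C * b := Nat.mul_pos hC1 (by omega)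
    exact_mod_cast this
  set ε₁ : ℝ := min (min ζ (1 / 2)) ((τ' - τ) / (4 * (C * b))) with hε₁
  have hε0 : 0 < ε₁ := lt_min (lt_min hζ (by norm_num)) (div_pos (by linarith) (by linarith))
  have hεζ : ε₁ ≤ ζ := (min_le_left _ _).trans (min_le_left _ _)
  have hεh : ε₁ ≤ 1 / 2 := (min_le_left _ _).trans (min_le_right _ _)
  have hεb : 2 * ε₁ * (C * b) ≤ (τ' - τ) / 2 := by
    have h6 : ε₁ ≤ (τ' - τ) / (4 * (C * b)) := min_le_right _ _
    rw [le_div_iff₀ (by linarith)] at h6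
    linarith
  obtain ⟨η₀, hη₀, HL'⟩ := lsw5 A0 F f hSF τ ζ hζ h1 hτ ε₁ κ₀ hε0 hεζ hκ0
  obtain ⟨Y2, hJ⟩ := exJ ε₁ hε0
  obtain ⟨Y5, hPL⟩ := prod_large κ ζ ε₁ κ₀ hε0 hεζ hκ0 (by linarith)
  set z0 : ℕ := C * (κ + 1) with hz0
  set B : ℕ := ∏ p ∈ (Icc 1 z0), p with hB
  have hB1 : 1 ≤ B := by
    rw [hB]
    exact Nat.pos_of_ne_zero (prod_ne_zero_iff.2 fun p hp => by
      have := (mem_Icc.1 hp).1
      omega)
  have ev1 : ∀ᶠ Y : ℕ in atTop, (B : ℝ) ≤ (Y : ℝ) ^ ((τ' - τ) / 2) :=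
    tendsto_natCast_atTop_atTop.eventually
      ((tendsto_rpow_atTop (by linarith)).eventually_ge_atTop _)
  have ev5 : ∀ᶠ Y : ℕ in atTop, 3 ≤ Real.log Y :=
    (Real.tendsto_log_atTop.comp tendsto_natCast_atTop_atTop).eventually_ge_atTop _
  obtain ⟨Y3, hY3⟩ := eventually_atTop.1 (ev1.and (ev5.and (eventually_ge_atTop 3)))
  refine ⟨ε₁, min η₀ (κ₀ / 4), hε0, hεζ, lt_min hη₀ (by linarith), max (max Y2 Y3) Y5, ?_⟩
  intro Y hY
  have hYY2 : Y2 ≤ Y := ((le_max_left _ _).trans (le_max_left _ _)).trans hY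
  have hYY5 : Y5 ≤ Y := (le_max_right _ _).trans hY
  obtain ⟨e1, e5, e4⟩ := hY3 Y (((le_max_right _ _).trans (le_max_left _ _)).trans hY)
  obtain ⟨J, hJ1, hJ2⟩ := hJ Y hYY2
  have hYr : (3 : ℝ) ≤ Y := by exact_mod_cast e4
  have hY1r : (1 : ℝ) ≤ Y := by linarith
  have hlY : 0 < Real.log Y := by linarith
  have hlog2 : 0.69 < Real.log 2 := by linarith [Real.log_two_gt_d9]
  -- size of J
  have hJc : (J : ℝ) + 3 ≤ 5 * Real.log Y := by
    have h6 := Real.log_le_log (by positivity) hJ2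
    rw [Real.log_rpow (by linarith), Real.log_pow] at h6
    push_cast at h6
    have h6' : (J : ℝ) ≤ 2 ^ J := by exact_mod_cast Nat.lt_two_pow_self.le
    have h7 : (2 : ℝ) ^ J * 0.69 ≤ 2 * ε₁ * Real.log Y := by
      refine le_trans ?_ h6
      apply mul_le_mul_of_nonneg_left hlog2.le (by positivity)
    have h8 : ε₁ * Real.log Y ≤ 1 / 2 * Real.log Y := by
      apply mul_le_mul_of_nonneg_right _ hlY.le
      linarith
    nlinarith
  -- the three sets of primes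
  set P0 : Finset ℕ := (PZ Y ε₁).filter (fun p => p ≤ z0) with hP0
  set P1 : Finset ℕ := (PZ Y ε₁).filter (fun p => ¬ p ≤ z0) with hP1
  set P2 : Finset ℕ := pr Y ε₁ ζ with hP2
  have hQ : P0 ∪ P1 = PZ Y ε₁ := filter_union_filter_not_eq _ _
  have hd01 : Disjoint P0 P1 := disjoint_filter_filter_not _ _ _
  have hPZ : ∀ p, p ∈ PZ Y ε₁ → p.Prime ∧ p ≤ Y ∧ (p : ℝ) < (Y : ℝ) ^ ε₁ := by
    intro p hp
    unfold PZ at hp
    rw [mem_filter, mem_Icc] at hp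
    exact ⟨hp.2.1, hp.1.2, (tt_lt Y p ε₁ (by omega) hp.2.1.pos).1 hp.2.2⟩
  have hd2 : Disjoint (PZ Y ε₁) P2 := by
    rw [disjoint_left]
    intro p hp hp'
    unfold PZ at hp
    rw [hP2] at hp'
    unfold pr at hp'
    rw [mem_filter] at hp hp'
    linarith [hp.2.2, hp'.2.2.1]
  have hPall : PZ Y ε₁ ∪ P2 = PZ Y ζ := by
    ext p
    rw [mem_union, hP2]
    unfold PZ pr
    rw [mem_filter, mem_filter, mem_filter]
    constructor
    · rintro (⟨h6, h7, h8⟩ | ⟨h6, h7, h8, h9⟩)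
      · exact ⟨h6, h7, h8.trans_le hεζ⟩
      · exact ⟨h6, h7, h9⟩
    · rintro ⟨h6, h7, h8⟩
      rcases lt_or_ge (tt Y p) ε₁ with h9 | h9
      · exact Or.inl ⟨h6, h7, h9⟩
      · exact Or.inr ⟨h6, h7, h9, h8⟩
  have hlt2 : ∀ p ∈ PZ Y ε₁, p < 2 ^ 2 ^ J := by
    intro p hp
    have h6 := (hPZ p hp).2.2.trans_le hJ1
    exact_mod_cast h6
  -- the weights
  obtain ⟨cU, cL, g1, g2, g3, g4⟩ := HF κ b J z0 P1 hb1 le_rfl (by
    intro p hp
    rw [hP1, mem_filter] at hp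
    exact ⟨(hPZ p hp.1).1, by omega, (hlt2 p hp.1).le⟩)
  obtain ⟨yU, yL, k1, k2, k3, k4⟩ := HL' Y (by omega)
  set W : (Finset ℕ → ℝ) → (Finset ℕ → ℝ) → Finset ℕ → ℝ := fun α β T =>
    (fun U => (-1) ^ (U ∩ P0).card * α (U ∩ P1)) (T ∩ PZ Y ε₁) * β (T ∩ P2) with hW
  have hVW : ∀ (α β : Finset ℕ → ℝ) (h : ℕ → ℝ), VV (PZ Y ζ) (W α β) h =
      (∏ p ∈ P0, (1 - h p)) * VV P1 α h * VV P2 β h := by
    intro α β h
    rw [← hPall]
    have h6 := VV_union (PZ Y ε₁) P2 hd2 (fun U => (-1) ^ (U ∩ P0).card * α (U ∩ P1)) β h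
    simp only [hW]
    rw [h6]
    congr 1
    have h7 := VV_union P0 P1 hd01 (fun U => (-1) ^ U.card) α h
    rw [VV_mu, hQ] at h7
    exact h7
  have hWle : ∀ (α β : Finset ℕ → ℝ) (T : Finset ℕ), |W α β T| =
      |α ((T ∩ PZ Y ε₁) ∩ P1)| * |β (T ∩ P2)| := by
    intro α β T
    simp only [hW]
    rw [abs_mul, abs_mul, abs_neg_one_pow, one_mul]
  refine ⟨W cU yU, fun T => W cL yU T + W cU yL T - W cU yU T, ?_, ?_, ?_, ?_⟩
  · intro T
    have h6 := hWle cL yU T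
    have h7 := hWle cU yL T
    have h8 := hWle cU yU T
    set U1 := (T ∩ PZ Y ε₁) ∩ P1
    set U2 := T ∩ P2
    have h9 : |W cL yU T| ≤ J + 1 := by
      rw [h6]
      calc |cL U1| * |yU U2| ≤ (J + 1) * 1 := by
            apply mul_le_mul (g1 U1).2 (k1 U2).1 (abs_nonneg _) (by positivity)
        _ = J + 1 := mul_one _
    have h10 : |W cU yL T| ≤ 1 := by
      rw [h7]
      calc |cU U1| * |yL U2| ≤ 1 * 1 := by
            apply mul_le_mul (g1 U1).1 (k1 U2).2 (abs_nonneg _) (by positivity)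
        _ = 1 := one_mul _
    have h11 : |W cU yU T| ≤ 1 := by
      rw [h8]
      calc |cU U1| * |yU U2| ≤ 1 * 1 := by
            apply mul_le_mul (g1 U1).1 (k1 U2).1 (abs_nonneg _) (by positivity)
        _ = 1 := mul_one _
    have hJ0 : (0 : ℝ) ≤ J := Nat.cast_nonneg _
    refine ⟨by linarith, ?_⟩
    calc |W cL yU T + W cU yL T - W cU yU T| ≤ |W cL yU T + W cU yL T| + |W cU yU T| := abs_sub _ _
      _ ≤ |W cL yU T| + |W cU yL T| + |W cU yU T| := by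
          have := abs_add_le (W cL yU T) (W cU yL T)
          linarith
      _ ≤ 5 * Real.log Y := by linarith
  · intro T hT hne
    have hne' : W cL yU T ≠ 0 ∨ W cU yL T ≠ 0 ∨ W cU yU T ≠ 0 := by
      by_contra hc
      push Not at hc
      obtain ⟨c1, c2, c3⟩ := hc
      rcases hne with h | h
      · exact h c3
      · apply h
        show W cL yU T + W cU yL T - W cU yU T = 0
        rw [c1, c2, c3]
        ring
    have hne1 : (cU ((T ∩ PZ Y ε₁) ∩ P1) ≠ 0 ∨ cL ((T ∩ PZ Y ε₁) ∩ P1) ≠ 0) := by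
      by_contra hc
      push Not at hc
      rcases hne' with h | h | h <;> apply h <;> simp only [hW, hc.1, hc.2] <;> ring
    have hne2 : (yU (T ∩ P2) ≠ 0 ∨ yL (T ∩ P2) ≠ 0) := by
      by_contra hc
      push Not at hc
      rcases hne' with h | h | h <;> apply h <;> simp only [hW, hc.1, hc.2] <;> ring
    have h6 := g2 _ inter_subset_right hne1
    have h7 := k2 _ inter_subset_right hne2
    have h8 : T = ((T ∩ P0) ∪ ((T ∩ PZ Y ε₁) ∩ P1)) ∪ (T ∩ P2) := by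
      ext p
      simp only [mem_union, mem_inter]
      constructor
      · intro hp
        have h9 := hT hp
        rw [← hPall, mem_union] at h9
        rcases h9 with h9 | h9
        · have h10 := h9
          rw [← hQ, mem_union] at h10
          rcases h10 with h10 | h10
          · exact Or.inl (Or.inl ⟨hp, h10⟩)
          · exact Or.inl (Or.inr ⟨⟨hp, h9⟩, h10⟩)
        · exact Or.inr ⟨hp, h9⟩
      · rintro ((h | h) | h)
        · exact h.1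
        · exact h.1.1
        · exact h.1
    have hpos : ∀ S ⊆ T, 1 ≤ ∏ p ∈ S, p := by
      intro S hS
      refine Nat.pos_of_ne_zero (prod_ne_zero_iff.2 fun p hp => ?_)
      have := hT (hS hp)
      unfold PZ at this
      rw [mem_filter] at this
      exact this.2.1.ne_zero
    have h9 : ∏ p ∈ T, p ≤ ((∏ p ∈ T ∩ P0, p) * ∏ p ∈ (T ∩ PZ Y ε₁) ∩ P1, p) *
        ∏ p ∈ T ∩ P2, p := by
      conv_lhs => rw [h8]
      have u1 : ∏ p ∈ ((T ∩ P0) ∪ ((T ∩ PZ Y ε₁) ∩ P1)) ∪ (T ∩ P2), p ≤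
          (∏ p ∈ ((T ∩ P0) ∪ ((T ∩ PZ Y ε₁) ∩ P1)), p) * ∏ p ∈ (T ∩ P2), p := by
        rw [← prod_union_inter]
        apply Nat.le_mul_of_pos_right
        exact hpos _ (inter_subset_right.trans inter_subset_left)
      have u2 : ∏ p ∈ ((T ∩ P0) ∪ ((T ∩ PZ Y ε₁) ∩ P1)), p ≤
          (∏ p ∈ (T ∩ P0), p) * ∏ p ∈ ((T ∩ PZ Y ε₁) ∩ P1), p := by
        rw [← prod_union_inter]
        apply Nat.le_mul_of_pos_right
        exact hpos _ (inter_subset_left.trans inter_subset_left)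
      exact u1.trans (Nat.mul_le_mul_right _ u2)
    have h10 : ∏ p ∈ T ∩ P0, p ≤ B := by
      rw [hB]
      apply prod_le_prod_of_subset_of_one_le'
      · intro p hp
        have h11 := (mem_inter.1 hp).2
        rw [hP0, mem_filter] at h11
        exact mem_Icc.2 ⟨(hPZ p h11.1).1.pos, h11.2⟩
      · intro p hp _
        exact (mem_Icc.1 hp).1
    have h11 : ((∏ p ∈ T, p : ℕ) : ℝ) ≤ ((B : ℝ) * ((2 : ℝ) ^ 2 ^ J) ^ (C * b)) *
        ((∏ p ∈ T ∩ P2, p : ℕ) : ℝ) := by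
      have h12 : ∏ p ∈ T, p ≤ (B * (2 ^ 2 ^ J) ^ (C * b)) * ∏ p ∈ T ∩ P2, p :=
        h9.trans (Nat.mul_le_mul_right _ (Nat.mul_le_mul h10 h6))
      exact_mod_cast h12
    refine h11.trans ?_
    calc ((B : ℝ) * ((2 : ℝ) ^ 2 ^ J) ^ (C * b)) * ((∏ p ∈ T ∩ P2, p : ℕ) : ℝ) ≤
        ((Y : ℝ) ^ ((τ' - τ) / 2) * ((Y : ℝ) ^ (2 * ε₁)) ^ (C * b)) * (Y : ℝ) ^ τ := by
          gcongr
      _ ≤ ((Y : ℝ) ^ ((τ' - τ) / 2) * (Y : ℝ) ^ ((τ' - τ) / 2)) * (Y : ℝ) ^ τ := by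
          gcongr
          rw [← Real.rpow_natCast, ← Real.rpow_mul (by linarith)]
          apply Real.rpow_le_rpow_of_exponent_le hY1r
          push_cast
          exact hεb
      _ = (Y : ℝ) ^ τ' := by
          rw [← Real.rpow_add (by linarith), ← Real.rpow_add (by linarith)]
          congr 1
          ring
  · intro N
    obtain ⟨a1, a2⟩ := g3 N
    obtain ⟨a3, a4⟩ := k3 N
    rw [VV_sub, VV_add, hVW, hVW, hVW]
    set h : ℕ → ℝ := fun p => if p ∣ N then 1 else 0 with hh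
    have hX0 : ∏ p ∈ P0, (1 - h p) = if ∀ p ∈ P0, ¬ p ∣ N then 1 else 0 := by
      have : ∀ p ∈ P0, 1 - h p = if ¬ p ∣ N then 1 else 0 := by
        intro p _
        simp only [hh]
        split_ifs <;> norm_num
      rw [prod_congr rfl this, Finset.prod_ite_zero]
      simp
    rw [hX0]
    set x : ℝ := if ∀ p ∈ P1, ¬ p ∣ N then 1 else 0 with hx
    set y : ℝ := if ∀ p ∈ P2, ¬ p ∣ N then 1 else 0 with hy
    have hx0 : 0 ≤ x := by rw [hx]; split_ifs <;> norm_num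
    have hy0 : 0 ≤ y := by rw [hy]; split_ifs <;> norm_num
    set L := VV P1 cL h
    set U := VV P1 cU h
    set l := VV P2 yL h
    set u := VV P2 yU h
    have key : L * u + U * l - U * u ≤ x * y := by
      have b1 : 0 ≤ (U - x) * (u - l) := mul_nonneg (by linarith) (by linarith)
      have b2 : 0 ≤ x * (y - l) := mul_nonneg hx0 (by linarith)
      have b3 : 0 ≤ (x - L) * u := mul_nonneg (by linarith) (by linarith)
      nlinarith
    have key2 : x * y ≤ U * u := mul_le_mul a2 a4 hy0 (by linarith)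
    by_cases hc0 : ∀ p ∈ P0, ¬ p ∣ N
    · rw [if_pos hc0]
      have hxy : x * y = if ∀ p ∈ PZ Y ζ, ¬ p ∣ N then (1 : ℝ) else 0 := by
        by_cases hc1 : ∀ p ∈ P1, ¬ p ∣ N
        · by_cases hc2 : ∀ p ∈ P2, ¬ p ∣ N
          · rw [hx, hy, if_pos hc1, if_pos hc2, if_pos, mul_one]
            intro p hp
            rw [← hPall, ← hQ, mem_union, mem_union] at hp
            rcases hp with (hp | hp) | hp
            · exact hc0 p hp
            · exact hc1 p hp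
            · exact hc2 p hp
          · rw [hy, if_neg hc2, if_neg, mul_zero]
            intro hc
            apply hc2
            intro p hp
            exact hc p (by rw [← hPall]; exact mem_union_right _ hp)
        · rw [hx, if_neg hc1, if_neg, zero_mul]
          intro hc
          apply hc1
          intro p hp
          exact hc p (by rw [← hPall, ← hQ]; exact mem_union_left _ (mem_union_right _ hp))
      rw [← hxy]
      constructor <;> linarith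
    · rw [if_neg hc0]
      have h6 : (if ∀ p ∈ PZ Y ζ, ¬ p ∣ N then (1 : ℝ) else 0) = 0 := by
        rw [if_neg]
        intro hc
        apply hc0
        intro p hp
        exact hc p (by rw [← hPall, ← hQ]; exact mem_union_left _ (mem_union_left _ hp))
      rw [h6]
      simp
  · intro h hh0 hh1 hhκ hMer
    rw [VV_sub, VV_add, hVW, hVW, hVW]
    have hzκ : κ ≤ z0 := by
      rw [hz0]
      calc κ ≤ 1 * (κ + 1) := by omega
        _ ≤ C * (κ + 1) := Nat.mul_le_mul_right _ hC1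
    have hsub1 : ∀ p ∈ PZ Y ε₁, p ∈ PZ Y ζ := fun p hp => by
      rw [← hPall]; exact mem_union_left _ hp
    have hsub2 : ∀ p ∈ P2, p ∈ PZ Y ζ := fun p hp => by
      rw [← hPall]; exact mem_union_right _ hp
    have hgn0 : ∀ p ∈ P1, 0 ≤ h p ∧ h p ≤ (κ : ℝ) / ((p : ℝ) - 1) := by
      intro p hp
      rw [hP1, mem_filter] at hp
      exact ⟨hh0 p (hsub1 p hp.1), hhκ p (hsub1 p hp.1) (by omega)⟩
    have hgn2 : ∀ p ∈ P2, 0 ≤ h p := fun p hp => hh0 p (hsub2 p hp)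
    obtain ⟨a1, a2, a3, a4⟩ := g4 h hgn0
    obtain ⟨a5, a6⟩ := k4 h hgn2 (mer_mono _ _ _ _ _ _ _ hMer (min_le_left _ _))
    obtain ⟨a7, a8⟩ := hPL Y hYY5 h hgn2 (fun p hp hκp => hhκ p (hsub2 p hp) hκp)
      (mer_mono _ _ _ _ _ _ _ hMer (min_le_right _ _))
    have hVV : ∏ p ∈ PZ Y ζ, (1 - h p) = ((∏ p ∈ P0, (1 - h p)) * ∏ p ∈ P1, (1 - h p)) *
        ∏ p ∈ P2, (1 - h p) := by
      rw [← hPall, prod_union hd2, ← hQ, prod_union hd01]
    rw [hVV]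
    set V0 := ∏ p ∈ P0, (1 - h p)
    set V1 := ∏ p ∈ P1, (1 - h p)
    set R2 := ∏ p ∈ P2, (1 - h p)
    have hfac : ∀ p ∈ PZ Y ε₁, 0 ≤ 1 - h p := fun p hp => by linarith [hh1 p (hsub1 p hp)]
    have hV0 : 0 ≤ V0 := prod_nonneg fun p hp => hfac p (by rw [← hQ]; exact mem_union_left _ hp)
    have hV1 : 0 ≤ V1 := prod_nonneg fun p hp => hfac p (by rw [← hQ]; exact mem_union_right _ hp)
    set L := VV P1 cL h
    set U := VV P1 cU h
    set l := VV P2 yL h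
    set u := VV P2 yU h
    have hFκ : 0 ≤ Fs + κ₀ := by linarith
    have hU0 : 0 ≤ U := hV1.trans a3
    have q1 : κ₀ * (2 * M + 1 + ε) ≤ ε := by
      have c1 : κ₀ * ε ≤ 1 / 24 * ε := mul_le_mul_of_nonneg_right hκ24 hε.le
      have c2 : κ₀ * (2 * M + 1 + ε) = κ₀ * (8 * M) / 4 + κ₀ + κ₀ * ε := by ring
      have c3 : κ₀ * 24 ≤ κ₀ * (8 * M) := mul_le_mul_of_nonneg_left (by linarith) hκ0.le
      rw [c2]
      linarith
    rw [hM] at q1
    have he0 : 0 < ε₁ / ζ := by positivity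
    exact ⟨alg_low V0 V1 R2 U L u l (ε₁ / ζ) ((1 / 2) ^ b) κ₀ Fs fs ε hV0 hV1 he0 hκ0 hκ24 hb2
      (by linarith) hε q1 a1 a2 a3 a4 a5 a6 a7 a8,
      alg_up V0 V1 R2 U u (ε₁ / ζ) ((1 / 2) ^ b) κ₀ Fs fs ε hV0 hV1 he0 hκ0 hκ24 hb2
      (by linarith) hε q1 a3 a4 a6 a7⟩

end Pool.Agent.Y882.JR
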